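import Pool.Agent.Lib.lead.CXGraphRed

set_option autoImplicit false

namespace Pool.Agent.H.MP_833c47_lc
open List

/-- `u` and `v` are consecutive on the path `P` -/
def Adj (P : List ℕ) (u v : ℕ) : Prop := [u, v] <:+: P ∨ [v, u] <:+: P

/-- `D` dominates the path `P` -/
def Dom (P : List ℕ) (D : ℕ → Prop) : Prop := ∀ v ∈ P, D v ∨ ∃ u, D u ∧ Adj P u v

variable {D : ℕ → Prop}

def W (D : ℕ → Prop) : List ℕ → Prop
  | x :: y :: z :: l => (D x ∨ D y ∨ D z) ∧ W D (y :: z :: l)
  | _ => True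

instance dW (D : ℕ → Bool) : ∀ l, Decidable (W (fun x => D x) l)
  | [] | [_] | [_, _] => isTrue trivial
  | _ :: y :: z :: l => have := dW D (y :: z :: l); inferInstanceAs (Decidable (_ ∧ _))

lemma W.tail : ∀ {x l}, W D (x :: l) → W D l
  | _, [], _ | _, [_], _ => trivial
  | _, _ :: _ :: _, h => h.2

lemma W.pre : ∀ {l t}, W D (l ++ t) → W D l
  | [], _, _ | [_], _, _ | [_, _], _, _ => trivial
  | _ :: y :: z :: l, _, h => ⟨h.1, W.pre (l := y :: z :: l) h.2⟩

lemma W.inf {l P} (h : W D P) (i : l <:+: P) : W D l := by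
  obtain ⟨s, t, rfl⟩ := i
  have := h.pre
  clear h
  induction s with
  | nil => exact this
  | cons _ _ ih => exact ih this.tail

lemma W_map {E : ℕ → Prop} {f : ℕ → ℕ} : ∀ {l}, (∀ x ∈ l, D (f x) ↔ E x) → (W D (l.map f) ↔ W E l)
  | [], _ | [_], _ | [_, _], _ => Iff.rfl
  | x :: y :: z :: l, h => and_congr (by rw [h x, h y, h z] <;> simp)
      (W_map (l := y :: z :: l) fun a ha => h a (mem_cons_of_mem _ ha))

lemma Dom.w {P} (n : P.Nodup) (h : Dom P D) (p : ℕ) : W D (p :: P) := by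
  have k : ∀ t s, P = s ++ t → W D (s.getLastD p :: t) := fun t => by
    induction t with
    | nil => exact fun _ _ => trivial
    | cons y t ih =>
      rintro s rfl
      rcases t with _ | ⟨z, t⟩
      · trivial
      refine ⟨?_, by simpa using ih (s ++ [y]) (by simp)⟩
      have n1 : y ∉ s ∧ y ∉ z :: t := by
        simp only [nodup_append, nodup_cons] at n
        exact ⟨fun h => n.2.2 y h y (by simp) rfl, n.2.1.1⟩
      obtain h | ⟨u, hu, ⟨a, b, e⟩ | ⟨a, b, e⟩⟩ := h y (by simp)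
      · exact .inr (.inl h)
      · obtain ⟨rfl, -⟩ := (append_cons_inj_of_notMem (a₁ := y) (x₂ := a ++ [u]) (z₂ := b)
          n1.1 n1.2).1 (by simp [← e])
        exact .inl (by simpa)
      · obtain ⟨-, -, e⟩ := (append_cons_inj_of_notMem (a₁ := y) (x₂ := a) (z₂ := u :: b)
          n1.1 n1.2).1 (by rw [← e]; simp)
        exact .inr (.inr ((cons.inj e).1 ▸ hu))
  exact k P [] rfl

lemma Adj.mono {l P u v} (h : Adj l u v) (i : l <:+: P) : Adj P u v :=
  h.imp (·.trans i) (·.trans i)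

lemma W.dom {q} (hq : ¬D q) : ∀ {l p}, W D (p :: (l ++ [q])) →
    ∀ v ∈ l, D v ∨ (D p ∧ l.head? = some v) ∨ ∃ u, D u ∧ Adj l u v
  | [], _, _ => by simp
  | [x], _, h => by have := h.1; simp; tauto
  | x :: y :: l, p, h => by
    intro v hv
    rcases mem_cons.1 hv with rfl | hv
    · rcases h.1 with h | h | h
      exacts [.inr (.inl ⟨h, rfl⟩), .inl h, .inr (.inr ⟨y, h, .inr ⟨[], l, rfl⟩⟩)]
    · rcases W.dom hq (l := y :: l) h.2 v hv with h | ⟨h, e⟩ | ⟨u, h, e⟩
      exacts [.inl h, .inr (.inr ⟨x, h, .inl ⟨[], l, by simpa using e.symm⟩⟩),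
        .inr (.inr ⟨u, h, e.mono (suffix_cons _ _).isInfix⟩)]

lemma dom_of {q l} (hq : ¬D q) (h : W D (q :: (l ++ [q]))) : Dom l D := fun v hv =>
  (W.dom hq h v hv).imp_right fun h => h.resolve_left fun h => hq h.1

lemma Dom.app {l t} (a : Dom l D) (b : Dom t D) : Dom (l ++ t) D := fun v hv =>
  (mem_append.1 hv).elim (fun h => (a v h).imp_right fun ⟨u, p, q⟩ =>
    ⟨u, p, q.mono (prefix_append _ _).isInfix⟩) fun h => (b v h).imp_right fun ⟨u, p, q⟩ =>
    ⟨u, p, q.mono (suffix_append _ _).isInfix⟩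

lemma Dom.flat {l : List ℕ} {f : ℕ → List ℕ} (h : ∀ j ∈ l, Dom (f j) D) : Dom (l.flatMap f) D := by
  induction l with
  | nil => simp [Dom]
  | cons j l ih => exact (h j (by simp)).app (ih fun i hi => h i (by simp [hi]))

lemma inf_flat {l : List ℕ} {f : ℕ → List ℕ} {j} (h : j ∈ l) : f j <:+: l.flatMap f := by
  obtain ⟨s, t, rfl⟩ := append_of_mem h
  exact ⟨s.flatMap f, t.flatMap f, by simp⟩

def tri (c : ℕ) : List ℕ := [c, c + 1, c + 2]

def One (D : ℕ → Prop) (c : ℕ) : Prop :=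
  ¬(D c ∧ D (c + 1)) ∧ ¬(D c ∧ D (c + 2)) ∧ ¬(D (c + 1) ∧ D (c + 2))

lemma ch1 {r : List ℕ} : ∀ {l : List ℕ} {p}, ¬D p → W D (p :: (l.flatMap tri ++ r)) →
    (∀ c ∈ l, One D c) → ∀ c ∈ l, ¬D (c + 2)
  | [], _, _, _, _ => by simp
  | c :: l, p, hp, h, o => by
    have a : ¬D (c + 2) := by have := h.1; have := o c (by simp); unfold One at this; tauto
    simpa using ⟨a, ch1 a h.2.2.tail fun c hc => o c (by simp [hc])⟩

lemma ch2 {r : List ℕ} {w} (hw : ¬D w) : ∀ {l : List ℕ}, W D (l.flatMap tri ++ w :: r) →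
    (∀ c ∈ l, One D c) → ∀ c ∈ l, ¬D c
  | [], _, _ => by simp
  | c :: l, h, o => by
    have ih := ch2 hw (l := l) h.2.tail.tail fun c hc => o c (by simp [hc])
    have := o c (by simp)
    unfold One at this
    rcases l with _ | ⟨d, l⟩
    · have := h.2.1; simp; tauto
    · have := h.2.1; have := ih d (by simp); simpa using ⟨by tauto, by simpa using ih⟩

lemma rep {R : ℕ → ℕ → Prop} {T r : List ℕ} (h1 : IsChain R (T ++ T)) (h2 : IsChain R (T ++ r))
    (h : T ≠ []) (l : List ℕ) : IsChain R (l.flatMap (fun _ => T) ++ r) := by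
  rw [isChain_append] at h1 h2
  induction l with
  | nil => exact h2.2.1
  | cons j l ih =>
    rw [flatMap_cons, append_assoc, isChain_append]
    refine ⟨h1.1, ih, ?_⟩
    rcases l with _ | ⟨i, l⟩
    · exact h2.2.2
    · obtain ⟨x, T, rfl⟩ := exists_cons_of_ne_nil h
      exact h1.2.2

def nx (va : ℕ → ℕ) (N o : ℕ) : ℕ := ((range N).filter fun i => o < i ∧ va i = va o).headD
  (((range N).filter fun i => va i = va o).headD 0)

variable {va : ℕ → ℕ} {N : ℕ}

lemma nx_spec {o} (h : o < N) : nx va N o < N ∧ va (nx va N o) = va o ∧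
    ((o < nx va N o ∧ ∀ i, o < i → i < nx va N o → va i ≠ va o) ∨
      (∀ i < N, o < i → va i ≠ va o) ∧ ∀ i < nx va N o, va i ≠ va o) := by
  simp only [nx, headD_eq_head?_getD, head?_filter]
  rcases e : (range N).find? fun i => o < i ∧ va i = va o with _ | k
  · rcases e' : (range N).find? fun i => va i = va o with _ | k
    · simpa using find?_eq_none.1 e' o (by simpa)
    · simp only [find?_range_eq_some, find?_eq_none] at e e'
      simp at e e' ⊢
      exact ⟨e'.2.1, e'.1, .inr ⟨e, e'.2.2⟩⟩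
  · simp only [find?_range_eq_some] at e
    simp at e ⊢
    exact ⟨e.2.1, e.1.2, .inl ⟨e.1.1, fun i a b => (e.2.2 i b).resolve_left (by omega)⟩⟩

lemma nx_surj {o} (h : o < N) : ∃ i < N, nx va N i = o := by
  have : ∀ a b, a < b → b < N → nx va N a ≠ nx va N b := fun a b ab hb e => by
    obtain ⟨-, h1, h2⟩ := nx_spec (va := va) (ab.trans hb)
    obtain ⟨-, h3, h4⟩ := nx_spec (va := va) hb
    have v : va b = va a := by rw [← h1, e, h3]
    rcases h2 with h2 | h2
    · rcases h4 with h4 | h4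
      exacts [h2.2 b ab (e ▸ h4.1) v, h4.2 a (e ▸ h2.1) v.symm]
    · exact h2.1 b hb ab v
  obtain ⟨i, e⟩ := Finite.injective_iff_surjective.1 (fun a b e => by
    have e := congrArg Fin.val e
    rcases lt_trichotomy a b with h | h | h
    exacts [absurd e (this _ _ h b.2), h, absurd e.symm (this _ _ h a.2)] :
    Function.Injective fun i : Fin N => (⟨nx va N i, (nx_spec i.2).1⟩ : Fin N)) ⟨o, h⟩
  exact ⟨i, i.2, congrArg Fin.val e⟩

lemma nx_prop {P : ℕ → Prop} (h : ∀ o < N, P o → P (nx va N o)) {o o'} (ho : o < N) (ho' : o' < N)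
    (e : va o' = va o) (p : P o) : P o' := by
  have a : ∀ k o, N - o = k → o < N → P o → ∃ f < N, va f = va o ∧ P f ∧ ∀ i < f, va i ≠ va o :=
    fun k => by
      induction k using Nat.strong_induction_on with | _ k ih =>
      intro o e ho p
      obtain ⟨h0, h1, h2 | h2⟩ := nx_spec (va := va) ho
      · exact h1 ▸ ih _ (by omega) _ rfl h0 (h o ho p)
      · exact ⟨_, h0, h1, h o ho p, h2.2⟩
  obtain ⟨f, hf, e1, p, m⟩ := a _ o rfl ho p
  have b : ∀ k f, o' - f = k → f ≤ o' → va f = va o' → P f → P o' := fun k => by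
    induction k using Nat.strong_induction_on with | _ k ih =>
    intro f e1 l v p
    rcases l.eq_or_lt with rfl | l
    · exact p
    obtain ⟨h0, h1, h2 | h2⟩ := nx_spec (va := va) (l.trans ho')
    · have : nx va N f ≤ o' := not_lt.1 fun c => h2.2 o' l c v.symm
      exact ih _ (by omega) _ rfl this (h1.trans v) (h f (l.trans ho') p)
    · exact absurd v.symm (h2.1 o' ho' l)
  exact b _ f rfl (not_lt.1 fun c => m o' c e) (e1.trans e.symm) p

end Pool.Agent.H.MP_833c47_lc
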