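import Pool.Agent.H.MP_833c47_lc.A

set_option autoImplicit false

namespace Pool.Agent.H.MP_833c47_lc
open List

def T1 : List ℕ := [59, 64, 57, 0, 1, 2, 3, 60, 4, 5, 6, 7, 62, 67, 70, 63, 12, 13, 14, 15, 65, 16, 17, 18,
  19, 66, 73, 76, 68, 24, 25, 26, 27, 69, 28, 29, 30, 31, 71, 58, 72, 8, 9, 10, 11, 74, 20, 21, 22, 23,
  35, 34, 33, 32, 75, 61, 77]
def T2 : List ℕ := [38, 43, 36, 10, 8, 11, 9, 39, 6, 4, 7, 5, 41, 2, 0, 3, 1, 42, 49, 52, 44, 22, 20, 23,
  21, 45, 18, 16, 19, 17, 47, 14, 12, 15, 13, 48, 55, 37, 50, 34, 32, 35, 33, 51, 30, 28, 31, 29, 53,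
  26, 24, 27, 25, 54, 40, 46, 56]

def b (o : ℕ) : ℕ := 78 * (o / 3) + 12 * (o % 3)
def g (va : ℕ → ℕ) (m j t : ℕ) : ℕ :=
  if t < 36 ∧ t % 12 / 4 = 1 then b (nx va (3 * m) (3 * j + t / 12)) + t % 12 else 78 * j + t
def sw (s : Bool) (t : ℕ) : ℕ :=
  if t < 36 ∧ t % 12 < 8 ∧ s = false then if t % 12 < 4 then t + 4 else t - 4 else t
def h (sg : ℕ → Bool) (j t : ℕ) : ℕ := 78 * j + sw (sg (3 * j + t / 12)) t
def ch (m o : ℕ) : List ℕ := (range m).flatMap fun j => (range 7).map fun i => 78 * j + o + 3 * i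
def P1 (va : ℕ → ℕ) (m : ℕ) : List ℕ :=
  (ch m 36).flatMap tri ++ (range m).flatMap fun j => T1.map (g va m j)
def P2 (sg : ℕ → Bool) (m : ℕ) : List ℕ :=
  (ch m 57).flatMap tri ++ (range m).flatMap fun j => T2.map (h sg j)

variable {va : ℕ → ℕ} {sg : ℕ → Bool} {m : ℕ} {D : ℕ → Prop}

lemma mem_ch {o c} : c ∈ ch m o ↔ ∃ j < m, ∃ i < 7, 78 * j + o + 3 * i = c := by simp [ch]

lemma pm {P : List ℕ} {n} (l : P.length = n) (s : ∀ v < n, v ∈ P) : P ~ range n :=
  ((subperm_of_subset nodup_range fun v hv => s v (mem_range.1 hv)).perm_of_length_le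
    (by simp [l])).symm

lemma inch {o v} (h1 : v < 78 * m) (h2 : o ≤ v % 78) (h3 : v % 78 < o + 21) :
    v ∈ (ch m o).flatMap tri :=
  mem_flatMap.2 ⟨_, mem_ch.2 ⟨v / 78, by omega, (v % 78 - o) / 3, by omega, rfl⟩, by
    simp [tri]; omega⟩

lemma perm1 : P1 va m ~ range (78 * m) := by
  refine pm (by simp [P1, ch, tri, T1, length_flatMap, flatMap_assoc, Function.comp_def]; omega)
    fun v hv => mem_append.2 ?_
  by_cases a : 36 ≤ v % 78 ∧ v % 78 < 57
  · exact .inl (inch hv a.1 a.2)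
  have t : ∀ t < 78, ¬(36 ≤ t ∧ t < 57) → t ∈ T1 := by decide
  refine .inr (mem_flatMap.2 ?_)
  by_cases c : v % 78 < 36 ∧ v % 78 % 12 / 4 = 1
  · obtain ⟨o, ho, e⟩ := nx_surj (va := va) (show 3 * (v / 78) + v % 78 / 12 < 3 * m by omega)
    refine ⟨o / 3, by simp; omega, mem_map.2 ⟨12 * (o % 3) + v % 78 % 12, t _ (by omega) (by omega), ?_⟩⟩
    rw [g, if_pos (by omega), show 3 * (o / 3) + _ = o by omega, e, b]
    omega
  · exact ⟨v / 78, by simp; omega, mem_map.2 ⟨_, t _ (by omega) a, by rw [g, if_neg c]; omega⟩⟩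

lemma perm2 : P2 sg m ~ range (78 * m) := by
  refine pm (by simp [P2, ch, tri, T2, length_flatMap, flatMap_assoc, Function.comp_def]; omega)
    fun v hv => mem_append.2 ?_
  by_cases a : 57 ≤ v % 78
  · exact .inl (inch hv a (by omega))
  obtain ⟨t1, t2, t3⟩ := (by decide : ∀ s, ∀ t < 57, sw s t ∈ T2 ∧ sw s t / 12 = t / 12 ∧
    sw s (sw s t) = t) (sg (3 * (v / 78) + v % 78 / 12)) (v % 78) (by omega)
  exact .inr (mem_flatMap.2 ⟨v / 78, by simp; omega, mem_map.2 ⟨_, t1, by rw [h, t2, t3]; omega⟩⟩)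

def κ (v : ℕ) : ℕ := if v % 78 < 36 then v % 78 % 4 else v % 78

def R (A K : List ℕ) (x y : ℕ) : Prop := (x, y) ∈ (A ++ A ++ K ++ K).zip (A ++ A ++ K ++ K).tail

instance (A K x y) : Decidable (R A K x y) := by unfold R; infer_instance

lemma chn {o} {T : List ℕ} {f : ℕ → ℕ → ℕ} (ho : o = 36 ∧ T = T1 ∨ o = 57 ∧ T = T2)
    (hf : ∀ j, ∀ t ∈ T, κ (f j t) = κ t) {u v}
    (i : [u, v] <:+: (ch m o).flatMap tri ++ (range m).flatMap fun j => T.map (f j)) :
    R (range' o 21) (T.map κ) (κ u) (κ v) := by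
  have e : ((ch m o).flatMap tri ++ (range m).flatMap fun j => T.map (f j)).map κ =
      (range m).flatMap (fun _ => range' o 21) ++ (range m).flatMap fun _ => T.map κ := by
    rw [map_append, ch, flatMap_assoc, map_flatMap, map_flatMap]
    congr 2 <;> ext1 j
    · rcases ho with ⟨rfl, -⟩ | ⟨rfl, -⟩ <;>
        simp [range_succ, tri, κ, add_assoc, Nat.mul_add_mod, range']
    · rw [map_map]; exact map_congr_left (hf j)
  have c : IsChain (R (range' o 21) (T.map κ)) (range' o 21 ++ range' o 21) ∧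
      IsChain (R (range' o 21) (T.map κ)) (range' o 21 ++ T.map κ) ∧
      IsChain (R (range' o 21) (T.map κ)) (T.map κ ++ T.map κ) ∧ T.map κ ≠ [] := by
    rcases ho with ⟨rfl, rfl⟩ | ⟨rfl, rfl⟩ <;> decide +kernel
  have c' := rep (r := []) c.2.2.1 (by simpa using c.2.2.1.left_of_append) c.2.2.2 (range m)
  rw [append_nil] at c'
  have := rep (r := (range m).flatMap fun _ => T.map κ) c.1 (isChain_append.2
    ⟨c.1.left_of_append, c', by
      rcases range m with _ | ⟨j, l⟩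
      · simp
      · obtain ⟨x, K, e⟩ := exists_cons_of_ne_nil c.2.2.2
        have := (isChain_append.1 c.2.1).2.2
        rw [e] at this ⊢
        exact this⟩) (by simp) (range m)
  obtain ⟨s, t, i⟩ := i.map κ
  rw [← e, ← i] at this
  exact isChain_pair.1 this.left_of_append.right_of_append

lemma disj (u v : ℕ) (h1 : Adj (P1 va m) u v) (h2 : Adj (P2 sg m) u v) : False := by
  have k : ∀ p ∈ (range' 36 21 ++ range' 36 21 ++ T1.map κ ++ T1.map κ).zip
      (range' 36 21 ++ range' 36 21 ++ T1.map κ ++ T1.map κ).tail,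
      ¬R (range' 57 21) (T2.map κ) p.1 p.2 ∧ ¬R (range' 57 21) (T2.map κ) p.2 p.1 := by
    decide +kernel
  have e : ∀ j t, κ (78 * j + t) = κ t := fun j t => by simp [κ, Nat.mul_add_mod]
  have a : ∀ j, ∀ t ∈ T1, κ (g va m j t) = κ t := fun j t ht => by
    unfold g b
    split_ifs with q
    · rw [add_assoc, e]
      exact (by decide : ∀ p < 3, ∀ t < 36, κ (12 * p + t % 12) = κ t) _ (by omega) _ q.1
    · exact e ..
  have c : ∀ j, ∀ t ∈ T2, κ (h sg j t) = κ t := fun j t ht =>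
    (e ..).trans ((by decide : ∀ s, ∀ t ∈ T2, κ (sw s t) = κ t) _ t ht)
  rcases h1 with h1 | h1 <;> have := k _ (chn (.inl ⟨rfl, rfl⟩) a h1) <;> rcases h2 with h2 | h2 <;>
    have c := chn (.inr ⟨rfl, rfl⟩) c h2
  exacts [this.1 c, this.2 c, this.2 c, this.1 c]

def st (a : Bool) (r : ℕ) : Bool := if a then r = 0 ∨ r = 3 else r = 1 ∨ r = 2
def sel (x y z : Bool) (p : ℕ) : Bool := if p = 0 then x else if p = 1 then y else z
def pat (x y z l l' : Bool) (t : ℕ) : Bool :=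
  if 36 ≤ t then t % 3 = 1 else if t % 12 < 4 then st (sel x y z (t / 12)) (t % 4)
  else if t % 12 < 8 then st (!sel x y z (t / 12)) (t % 4) else if t < 12 then st l (t % 4)
  else if t < 24 then if l ∨ l' then st (!l) (t % 4) else t % 4 < 2 else st (!(l || l')) (t % 4)
def DD (α : ℕ → Bool) (sg : ℕ → Bool) (v : ℕ) : Bool :=
  pat (α (3 * (v / 78))) (α (3 * (v / 78) + 1)) (α (3 * (v / 78) + 2))
    (α (3 * (v / 78)) == sg (3 * (v / 78))) (α (3 * (v / 78) + 1) == sg (3 * (v / 78) + 1)) (v % 78)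

lemma DD_eq {α : ℕ → Bool} (j : ℕ) {t} (ht : t < 78) : DD α sg (78 * j + t) = pat (α (3 * j))
    (α (3 * j + 1)) (α (3 * j + 2)) (α (3 * j) == sg (3 * j)) (α (3 * j + 1) == sg (3 * j + 1)) t := by
  rw [DD, show (78 * j + t) / 78 = j by omega, show (78 * j + t) % 78 = t by omega]

lemma sel_eq {β : ℕ → Bool} (j : ℕ) {p} (hp : p < 3) :
    sel (β (3 * j)) (β (3 * j + 1)) (β (3 * j + 2)) p = β (3 * j + p) := by
  interval_cases p <;> rfl

lemma suff (α : ℕ → Bool) (hs : ∀ j < m, ∃ p < 3, α (va (3 * j + p)) = sg (3 * j + p)) :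
    Dom (P1 va m) (DD (α ∘ va) sg ·) ∧ Dom (P2 sg m) (DD (α ∘ va) sg ·) ∧
      ((range (78 * m)).filter (DD (α ∘ va) sg)).length = 32 * m := by
  have c : ∀ o, o = 36 ∨ o = 57 → Dom ((ch m o).flatMap tri) (DD (α ∘ va) sg ·) := fun o ho =>
    .flat fun c hc => by
      obtain ⟨j, -, i, hi, rfl⟩ := mem_ch.1 hc
      have : DD (α ∘ va) sg (78 * j + o + 3 * i + 1) := by
        rw [add_assoc, add_assoc, DD_eq _ (by omega), pat, if_pos (by omega)]; simp; omega
      intro v hv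
      simp only [tri, mem_cons, not_mem_nil, or_false] at hv
      rcases hv with rfl | rfl | rfl
      exacts [.inr ⟨_, this, .inr ⟨[], _, rfl⟩⟩, .inl this, .inr ⟨_, this, .inl ⟨[_], [], rfl⟩⟩]
  have n : ∀ j, ¬DD (α ∘ va) sg (78 * j + 36) := fun j => by rw [DD_eq _ (by omega)]; simp [pat]
  refine ⟨(c _ (.inl rfl)).app (.flat fun j hj => dom_of (n j) ?_),
    (c _ (.inr rfl)).app (.flat fun j hj => dom_of (n j) ?_), ?_⟩
  · obtain ⟨p, hp, e⟩ := hs j (mem_range.1 hj)
    refine (W_map (l := 36 :: (T1 ++ [36])) (f := g va m j) fun t ht => ?_).2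
      ((by decide +kernel : ∀ x y z l l', W (pat x y z l l' ·) (36 :: (T1 ++ [36]))) (α (va (3 * j)))
        (α (va (3 * j + 1))) (α (va (3 * j + 2))) (α (va (3 * j)) == sg (3 * j))
        (α (va (3 * j + 1)) == sg (3 * j + 1)))
    have := (by decide : ∀ t ∈ 36 :: (T1 ++ [36]), t < 78) t ht
    rw [g]
    split_ifs with q
    · have s := (nx_spec (va := va) (show 3 * j + t / 12 < 3 * m by simp at hj; omega)).2.1
      generalize nx va (3 * m) (3 * j + t / 12) = o at *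
      rw [b, add_assoc, DD_eq _ (by omega), pat, pat, if_neg (by omega), if_neg (by omega),
        if_pos (by omega), if_neg (by omega), if_neg (by omega), if_pos (by omega),
        sel_eq _ (by omega), sel_eq (β := fun o => α (va o)) _ (by omega),
        show 3 * (o / 3) + _ = o by omega, show (12 * (o % 3) + t % 12) % 4 = t % 4 by omega]
      simp [s]
    · rw [DD_eq _ this]; rfl
  · obtain ⟨p, hp, e⟩ := hs j (mem_range.1 hj)
    have := (by decide +kernel : ∀ x y z s s' s'', (x == s || y == s' || z == s'') →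
      W (fun t => pat x y z (x == s) (y == s') (sw (sel s s' s'' (t / 12)) t)) (36 :: (T2 ++ [36])))
      (α (va (3 * j))) (α (va (3 * j + 1))) (α (va (3 * j + 2))) (sg (3 * j)) (sg (3 * j + 1))
      (sg (3 * j + 2)) (by interval_cases p <;> simp_all)
    refine (W_map (l := 36 :: (T2 ++ [36])) (f := h sg j) fun t ht => ?_).2 this
    have := (by decide : ∀ t ∈ 36 :: (T2 ++ [36]), t < 78 ∧ ∀ s, sw s t < 78) t ht
    rw [h, DD_eq _ (this.2 _)]
    by_cases q : t < 36
    · rw [sel_eq _ (by omega)]; rfl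
    · simp [sw, q]
  · clear hs c
    induction m with
    | zero => rfl
    | succ m ih =>
      rw [mul_add, range_add, filter_append, length_append, ih, filter_map, length_map,
        filter_congr (p := DD (α ∘ va) sg ∘ fun x => 78 * m + x) fun t ht => DD_eq m (mem_range.1 ht),
        (by decide +kernel : ∀ x y z l l', ((range (78 * 1)).filter (pat x y z l l')).length = 32)]
      ring

end Pool.Agent.H.MP_833c47_lc
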