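import Pool.Agent.H.MP_833c47_lc.B

set_option autoImplicit false

namespace Pool.Agent.H.MP_833c47_lc
open List

variable {va : ℕ → ℕ} {sg : ℕ → Bool} {m : ℕ} {D : ℕ → Prop}

def Wh (m w : ℕ) : Prop := w < 78 * m ∧ 36 ≤ w % 78 ∧ w % 3 ≠ 1

def q1 (c : ℕ) : List ℕ := [c, c + 1, c + 2, c + 3]
def q2 (c : ℕ) : List ℕ := [c + 2, c, c + 3, c + 1]

def Two (D : ℕ → Prop) (c : ℕ) : Prop := ¬(D c ∧ D (c + 1) ∧ D (c + 2)) ∧ ¬(D c ∧ D (c + 1) ∧
  D (c + 3)) ∧ ¬(D c ∧ D (c + 2) ∧ D (c + 3)) ∧ ¬(D (c + 1) ∧ D (c + 2) ∧ D (c + 3))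

lemma bq (j : ℕ) {p} (hp : p < 3) : b (3 * j + p) = 78 * j + 12 * p := by unfold b; omega

lemma f1 (w : W D (P1 va m)) {o} (ho : o < 3 * m) : ∃ x y z, Wh m x ∧ Wh m y ∧ Wh m z ∧
    W D (x :: (q1 (b o) ++ y :: (q1 (b (nx va (3 * m) o) + 4) ++ [z]))) := by
  obtain ⟨j, p, hp, rfl⟩ : ∃ j p, p < 3 ∧ o = 3 * j + p := ⟨o / 3, o % 3, by omega, by omega⟩
  have k : ∀ l, l <:+: T1 → W D (l.map (g va m j)) := fun l i => w.inf ((i.map _).trans
    ((inf_flat (f := fun j => T1.map (g va m j)) (mem_range.2 (show j < m by omega))).trans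
      (suffix_append _ _).isInfix))
  rw [bq j hp]
  interval_cases p
  · exact ⟨78 * j + 57, 78 * j + 60, 78 * j + 62, by unfold Wh; omega, by unfold Wh; omega,
      by unfold Wh; omega, by simpa [g, q1, add_assoc] using k [57, 0, 1, 2, 3, 60, 4, 5, 6, 7, 62] (by decide)⟩
  · exact ⟨78 * j + 63, 78 * j + 65, 78 * j + 66, by unfold Wh; omega, by unfold Wh; omega,
      by unfold Wh; omega, by simpa [g, q1, add_assoc] using k [63, 12, 13, 14, 15, 65, 16, 17, 18, 19, 66] (by decide)⟩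
  · exact ⟨78 * j + 68, 78 * j + 69, 78 * j + 71, by unfold Wh; omega, by unfold Wh; omega,
      by unfold Wh; omega, by simpa [g, q1, add_assoc] using k [68, 24, 25, 26, 27, 69, 28, 29, 30, 31, 71] (by decide)⟩

lemma f3 (w : W D (P1 va m)) {j} (hj : j < m) : W D ((78 * j + 72) :: (q1 (78 * j + 8) ++ (78 * j + 74) ::
    (q1 (78 * j + 20) ++ (q1 (78 * j + 32)).reverse ++ [78 * j + 75]))) := by
  simpa [g, q1, add_assoc] using w.inf (((by decide : [72, 8, 9, 10, 11, 74, 20, 21, 22, 23, 35, 34,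
    33, 32, 75] <:+: T1).map (g va m j)).trans ((inf_flat (f := fun j => T1.map (g va m j)) (mem_range.2 hj)).trans
      (suffix_append _ _).isInfix))

lemma f2 (w : W D (P2 sg m)) {o} (ho : o < 3 * m) : ∃ x y z u, Wh m x ∧ Wh m y ∧ Wh m z ∧ Wh m u ∧
    W D (x :: (q2 (b o + 8) ++ y :: (q2 (b o + if sg o then 4 else 0) ++ z ::
      (q2 (b o + if sg o then 0 else 4) ++ [u])))) := by
  obtain ⟨j, p, hp, rfl⟩ : ∃ j p, p < 3 ∧ o = 3 * j + p := ⟨o / 3, o % 3, by omega, by omega⟩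
  have k : ∀ l, l <:+: T2 → W D (l.map (h sg j)) := fun l i => w.inf ((i.map _).trans
    ((inf_flat (f := fun j => T2.map (h sg j)) (mem_range.2 (show j < m by omega))).trans
      (suffix_append _ _).isInfix))
  rw [bq j hp]
  interval_cases p
  · refine ⟨78 * j + 36, 78 * j + 39, 78 * j + 41, 78 * j + 42, by unfold Wh; omega,
      by unfold Wh; omega, by unfold Wh; omega, by unfold Wh; omega, ?_⟩
    have := k [36, 10, 8, 11, 9, 39, 6, 4, 7, 5, 41, 2, 0, 3, 1, 42] (by decide)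
    cases e : sg (3 * j) <;> simpa [h, sw, q2, add_assoc, e] using this
  · refine ⟨78 * j + 44, 78 * j + 45, 78 * j + 47, 78 * j + 48, by unfold Wh; omega,
      by unfold Wh; omega, by unfold Wh; omega, by unfold Wh; omega, ?_⟩
    have := k [44, 22, 20, 23, 21, 45, 18, 16, 19, 17, 47, 14, 12, 15, 13, 48] (by decide)
    cases e : sg (3 * j + 1) <;> simpa [h, sw, q2, add_assoc, e] using this
  · refine ⟨78 * j + 50, 78 * j + 51, 78 * j + 53, 78 * j + 54, by unfold Wh; omega,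
      by unfold Wh; omega, by unfold Wh; omega, by unfold Wh; omega, ?_⟩
    have := k [50, 34, 32, 35, 33, 51, 30, 28, 31, 29, 53, 26, 24, 27, 25, 54] (by decide)
    cases e : sg (3 * j + 2) <;> simpa [h, sw, q2, add_assoc, e] using this

lemma qa (w2 : W D (P2 sg m)) {j i} (hj : j < m) (hi : i < 9) : W D (q2 (78 * j + 4 * i)) := by
  have ho : 3 * j + i / 3 < 3 * m := by omega
  obtain ⟨x, y, z, u, -, -, -, -, a⟩ := f2 w2 ho
  rw [show 78 * j + 4 * i = b (3 * j + i / 3) + 4 * (i % 3) by rw [bq _ (by omega)]; omega]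
  generalize b (3 * j + i / 3) = c at *
  have a1 := a.inf (l := q2 _) ⟨[x], _, rfl⟩
  have a2 := a.inf (l := q2 _) ⟨x :: (q2 _ ++ [y]), _, rfl⟩
  have a3 := a.inf (l := q2 _) ⟨x :: (q2 _ ++ y :: (q2 _ ++ [z])), _, rfl⟩
  obtain h | h | h : i % 3 = 0 ∨ i % 3 = 1 ∨ i % 3 = 2 := by omega
  all_goals rw [h]; cases e : sg (3 * j + i / 3) <;> rw [e] at a2 a3 <;> assumption

lemma qb (w1 : W D (P1 va m)) {j i} (hj : j < m) (hi : i < 9) : W D (q1 (78 * j + 4 * i)) := by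
  have ho : 3 * j + i / 3 < 3 * m := by omega
  have e : 78 * j + 4 * i = b (3 * j + i / 3) + 4 * (i % 3) := by rw [bq _ (by omega)]; omega
  obtain h | h | h : i % 3 = 0 ∨ i % 3 = 1 ∨ i % 3 = 2 := by omega
  · obtain ⟨x, _, _, -, -, -, a⟩ := f1 w1 ho
    rw [e, h]
    exact a.inf ⟨[x], _, rfl⟩
  · obtain ⟨o, ho', e'⟩ := nx_surj (va := va) ho
    obtain ⟨x, y, _, -, -, -, a⟩ := f1 w1 ho'
    rw [e, h, ← e']
    exact a.inf ⟨x :: (q1 _ ++ [y]), _, rfl⟩
  · have a := f3 w1 hj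
    obtain rfl | rfl | rfl : i = 2 ∨ i = 5 ∨ i = 8 := by omega
    · exact a.inf ⟨[_], _, rfl⟩
    · exact a.inf ⟨_ :: (q1 _ ++ [_]), _, rfl⟩
    · have := a.inf (l := (q1 _).reverse) ⟨_ :: (q1 _ ++ _ :: q1 _), _, rfl⟩
      simp [W, q1] at this ⊢
      tauto

open Classical in
lemma tight (w1 : W D (P1 va m)) (w2 : W D (P2 sg m))
    (c : ∑ v ∈ Finset.range (78 * m), (if D v then 1 else 0) ≤ 32 * m) {j} (hj : j < m) :
    (∀ i < 9, Two D (78 * j + 4 * i)) ∧ ∀ i < 14, One D (78 * j + 36 + 3 * i) := by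
  obtain ⟨χ, hχ⟩ : ∃ χ : ℕ → ℕ, ∀ v, χ v = if D v then 1 else 0 := ⟨_, fun _ => rfl⟩
  simp only [← hχ] at c
  obtain ⟨Q, hQ⟩ : ∃ Q : ℕ → ℕ, ∀ c, Q c = χ c + χ (c + 1) + χ (c + 2) + χ (c + 3) := ⟨_, fun _ => rfl⟩
  obtain ⟨T, hT⟩ : ∃ T : ℕ → ℕ, ∀ c, T c = χ c + χ (c + 1) + χ (c + 2) := ⟨_, fun _ => rfl⟩
  have e : ∀ m, ∑ v ∈ Finset.range (78 * m), χ v = ∑ j ∈ Finset.range m,
      (∑ i ∈ Finset.range 9, Q (78 * j + 4 * i) + ∑ i ∈ Finset.range 14, T (78 * j + 36 + 3 * i)) :=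
    fun m => by
      induction m with
      | zero => rfl
      | succ m ih =>
        rw [mul_add, Finset.sum_range_add, ih, Finset.sum_range_succ _ m]
        simp [Finset.sum_range_succ, hQ, hT, add_assoc]
  have lq : ∀ j < m, ∀ i ∈ Finset.range 9, 2 ≤ Q (78 * j + 4 * i) := fun j hj i hi => by
    have hi := Finset.mem_range.1 hi
    have a1 := qa w2 hj hi
    have a2 := qb w1 hj hi
    simp only [W, q1, q2, hQ, hχ] at a1 a2 ⊢
    split_ifs <;> simp_all
  have lt : ∀ j < m, ∀ i ∈ Finset.range 14, 1 ≤ T (78 * j + 36 + 3 * i) := fun j hj i hi => by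
    have hi := Finset.mem_range.1 hi
    have : W D (tri (78 * j + 36 + 3 * i)) := by
      by_cases q : i < 7
      · exact w1.inf ((inf_flat (mem_ch.2 ⟨j, hj, i, q, rfl⟩)).trans (prefix_append _ _).isInfix)
      · exact w2.inf ((inf_flat (mem_ch.2 ⟨j, hj, i - 7, by omega, by omega⟩)).trans
          (prefix_append _ _).isInfix)
    simp only [W, tri, hT, hχ] at this ⊢
    split_ifs <;> simp_all
  have sq := fun j hj => Finset.sum_le_sum (lq j hj)
  have st := fun j hj => Finset.sum_le_sum (lt j hj)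
  simp only [Finset.sum_const, Finset.card_range, smul_eq_mul] at sq st
  have := (Finset.sum_eq_sum_iff_of_le (f := fun _ => 32) fun j hj => add_le_add
    (sq j (Finset.mem_range.1 hj)) (st j (Finset.mem_range.1 hj))).1 (le_antisymm
      (Finset.sum_le_sum fun j hj => add_le_add (sq j (Finset.mem_range.1 hj))
        (st j (Finset.mem_range.1 hj))) (by rw [← e]; simpa [mul_comm] using c)) j (by simpa)
  have a := sq j hj
  have a' := st j hj
  refine ⟨fun i hi => ?_, fun i hi => ?_⟩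
  · have := (Finset.sum_eq_sum_iff_of_le (lq j hj)).1 (by
      rw [Finset.sum_const, Finset.card_range, smul_eq_mul]; omega) i (Finset.mem_range.2 hi)
    simp only [hQ, hχ, Two] at this ⊢
    generalize 78 * j + 4 * i = d at this ⊢
    revert this
    by_cases D d <;> by_cases D (d + 1) <;> by_cases D (d + 2) <;> by_cases D (d + 3) <;> simp [*]
  · have := (Finset.sum_eq_sum_iff_of_le (lt j hj)).1 (by
      rw [Finset.sum_const, Finset.card_range, smul_eq_mul]; omega) i (Finset.mem_range.2 hi)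
    simp only [hT, hχ, One] at this ⊢
    generalize 78 * j + 36 + 3 * i = d at this ⊢
    revert this
    by_cases D d <;> by_cases D (d + 1) <;> by_cases D (d + 2) <;> simp [*]

open Classical in
lemma whs {p} (hp : ¬D p) (w1 : W D (p :: P1 va m)) (w2 : W D (p :: P2 sg m))
    (c : ∑ v ∈ Finset.range (78 * m), (if D v then 1 else 0) ≤ 32 * m) :
    (∀ w, Wh m w → ¬D w) ∧ ∀ o < 3 * m, ∀ i < 3, Two D (b o + 4 * i) := by
  have t := fun j => tight (j := j) w1.tail w2.tail c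
  refine ⟨?_, fun o ho i hi =>
    (show 78 * (o / 3) + 4 * (3 * (o % 3) + i) = b o + 4 * i by unfold b; omega) ▸
      (t (o / 3) (by omega)).1 _ (by omega)⟩
  have oA : ∀ c ∈ ch m 36, One D c := fun c hc => by
    obtain ⟨j, hj, i, hi, rfl⟩ := mem_ch.1 hc
    exact (t j hj).2 i (by omega)
  have oB : ∀ c ∈ ch m 57, One D c := fun c hc => by
    obtain ⟨j, hj, i, hi, rfl⟩ := mem_ch.1 hc
    exact (show 78 * j + 36 + 3 * (i + 7) = 78 * j + 57 + 3 * i by omega) ▸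
      (t j hj).2 (i + 7) (by omega)
  have lA := ch1 hp w1 oA
  have lB := ch1 hp w2 oB
  clear t c
  rcases m with _ | m
  · exact fun w h => absurd h.1 (by omega)
  obtain ⟨r, e⟩ : ∃ r, ((range (m + 1)).flatMap fun j => T1.map (g va (m + 1) j)) = 59 :: r := by
    rw [range_succ_eq_map, flatMap_cons, T1, map_cons]; exact ⟨_, rfl⟩
  obtain ⟨r', e'⟩ : ∃ r, ((range (m + 1)).flatMap fun j => T2.map (h sg j)) = 38 :: r := by
    rw [range_succ_eq_map, flatMap_cons, T2, map_cons]; exact ⟨_, rfl⟩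
  rw [P1, e] at w1
  rw [P2, e'] at w2
  have fA := ch2 (w := 59) (lB 57 (mem_ch.2 ⟨0, by omega, 0, by omega, rfl⟩)) w1.tail oA
  have fB := ch2 (w := 38) (lA 36 (mem_ch.2 ⟨0, by omega, 0, by omega, rfl⟩)) w2.tail oB
  clear w1 w2 e e' oA oB
  intro w ⟨h1, h2, h3⟩
  by_cases a : w % 78 < 57 <;> by_cases q : w % 3 = 0
  · exact fA w (mem_ch.2 ⟨w / 78, by omega, (w % 78 - 36) / 3, by omega, by omega⟩)
  · exact (show w - 2 + 2 = w by omega) ▸
      lA (w - 2) (mem_ch.2 ⟨w / 78, by omega, (w % 78 - 36) / 3, by omega, by omega⟩)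
  · exact fB w (mem_ch.2 ⟨w / 78, by omega, (w % 78 - 57) / 3, by omega, by omega⟩)
  · exact (show w - 2 + 2 = w by omega) ▸
      lB (w - 2) (mem_ch.2 ⟨w / 78, by omega, (w % 78 - 57) / 3, by omega, by omega⟩)

lemma g1 (w1 : W D (P1 va m)) (wh : ∀ w, Wh m w → ¬D w) {o} (ho : o < 3 * m) :
    ((D (b o) ∨ D (b o + 1)) ∧ (D (b o + 2) ∨ D (b o + 3))) ∧
      (D (b o + 3) ∨ D (b (nx va (3 * m) o) + 4)) ∧ (D (b (nx va (3 * m) o) + 4) ∨
        D (b (nx va (3 * m) o) + 5)) ∧ (D (b (nx va (3 * m) o) + 6) ∨ D (b (nx va (3 * m) o) + 7)) := by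
  obtain ⟨x, y, z, hx, hy, hz, a⟩ := f1 w1 ho
  have hx := wh _ hx
  have hy := wh _ hy
  have hz := wh _ hz
  generalize b (nx va (3 * m) o) = c at *
  generalize b o = d at *
  obtain ⟨a1, -, -, a4, a5, a6, -, -, a9, -⟩ := a
  exact ⟨⟨a1.resolve_left hx, by tauto⟩, by tauto, a6.resolve_left hy, by tauto⟩

lemma g2 (w1 : W D (P1 va m)) (w2 : W D (P2 sg m)) (wh : ∀ w, Wh m w → ¬D w)
    (tw : ∀ o < 3 * m, ∀ i < 3, Two D (b o + 4 * i)) {o} (ho : o < 3 * m) :
    (D (b o + 10) ∨ D (b o + 8)) ∧ (D (b o + 11) ∨ D (b o + 9)) ∧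
      (¬D (b o) ↔ ¬D (b o + 3)) ∧ (¬D (b o) ∨ ¬D (b o + 4)) ∧
      (D (b o + 9) ∨ if sg o then ¬D (b o + 4) else ¬D (b o)) := by
  obtain ⟨x, y, z, u, hx, hy, hz, hu, a⟩ := f2 w2 ho
  obtain ⟨o', ho', e⟩ := nx_surj (va := va) ho
  have a1 := (g1 w1 wh ho).1
  have a2 := e ▸ (g1 w1 wh ho').2.2
  have t0 := tw o ho 0 (by omega)
  have t1 := tw o ho 1 (by omega)
  have hx := wh _ hx
  have hy := wh _ hy
  have hz := wh _ hz
  have hu := wh _ hu
  clear wh tw w1 w2 e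
  generalize b o = d at *
  cases e : sg o <;> simp [W, q2, hx, hy, hz, hu, add_assoc, e, Two] at a t0 t1 ⊢ <;> grind

open Classical in
lemma nec {p} (hp : ¬D p) (w1 : W D (p :: P1 va m)) (w2 : W D (p :: P2 sg m))
    (c : ∑ v ∈ Finset.range (78 * m), (if D v then 1 else 0) ≤ 32 * m) :
    ∃ α : ℕ → Bool, ∀ j < m, ∃ p < 3, α (va (3 * j + p)) = sg (3 * j + p) := by
  obtain ⟨wh, tw⟩ := whs hp w1 w2 c
  have g1 := fun o => g1 (o := o) w1.tail wh
  have g2 := fun o => g2 (o := o) w1.tail w2.tail wh tw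
  have pr : ∀ o < 3 * m, ¬D (b o) → ¬D (b (nx va (3 * m) o)) := fun o ho h => by
    have := (g1 o ho).2.1
    have := (g2 o ho).2.2.1
    have := (g2 _ (nx_spec (va := va) ho).1).2.2.2.1
    clear g1 g2
    tauto
  refine ⟨fun x => ∀ o < 3 * m, va o = x → D (b o), fun j hj => ?_⟩
  obtain ⟨p, hp, n⟩ : ∃ p < 3, ¬D (b (3 * j + p) + 9) := by
    by_contra! n
    have a := f3 w1.tail hj
    have k : ∀ p < 3, _ := fun p hp => And.intro (n p hp) (And.intro (g2 (3 * j + p) (by omega)).1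
      (And.intro (g2 (3 * j + p) (by omega)).2.1 (tw (3 * j + p) (by omega) 2 (by omega))))
    have k0 := k 0 (by omega)
    have k1 := k 1 (by omega)
    have k2 := k 2 (by omega)
    rw [bq _ (by omega)] at k0 k1 k2
    have h1 := wh (78 * j + 72) (by unfold Wh; omega)
    have h2 := wh (78 * j + 74) (by unfold Wh; omega)
    have h3 := wh (78 * j + 75) (by unfold Wh; omega)
    clear k g1 g2 pr tw wh w1 w2 c n
    generalize 78 * j = d at *
    simp [W, q1, h1, h2, h3, add_assoc, Two] at a k0 k1 k2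
    grind
  have ho : 3 * j + p < 3 * m := by omega
  refine ⟨p, hp, ?_⟩
  have a := (g2 _ ho).2.2.2.2.resolve_left n
  cases e : sg (3 * j + p) <;> simp only [e, if_true, Bool.false_eq_true, if_false] at a
  · simpa using ⟨_, ho, rfl, a⟩
  · obtain ⟨o', ho', e'⟩ := nx_surj (va := va) ho
    refine decide_eq_true fun o h1 h2 => by_contra fun q => ?_
    have := nx_prop (P := fun o => ¬D (b o)) pr h1 ho'
      (by rw [h2, ← e', (nx_spec (va := va) ho').2.1]) q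
    have := (g2 o' ho').2.2.1
    have := e' ▸ (g1 o' ho').2.1
    clear g1 g2 pr
    tauto

end Pool.Agent.H.MP_833c47_lc
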